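import Pool.Agent.H79.LP.LenMain

set_option autoImplicit false
set_option linter.all false

/-!
# Symbol length and index, prime by prime
-/

open scoped TensorProduct

namespace Pool.Agent.H79.LP

open Pool.Agent.Helper18.Br Pool.Agent.H552R3.SymBr Pool.Agent.H552R3.SymPred Pool.Agent.H552R3.Tsen
  Pool.Agent.Y109.PI Pool.Agent.R992.PI

universe u

theorem dvd_of_parts {n : ℕ} (hn : 0 < n) (x : ℤ)
    (h : ∀ p : ℕ, p.Prime → p ∣ n → ((p ^ n.factorization p : ℕ) : ℤ) ∣ x) : (n : ℤ) ∣ x := by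
  have h0 : n ∣ x.natAbs := by
    rw [Nat.dvd_iff_prime_pow_dvd_dvd]
    intro p k hp hk
    rcases Nat.eq_zero_or_pos k with rfl | hk0
    · simp
    · have hpn : p ∣ n := (dvd_pow_self p hk0.ne').trans hk
      have h1 : k ≤ n.factorization p := (hp.pow_dvd_iff_le_factorization hn.ne').1 hk
      exact (pow_dvd_pow p h1).trans (Int.natCast_dvd.1 (h p hp hpn))
  exact Int.natCast_dvd.2 h0

theorem parts_dvd {n : ℕ} (hn : 0 < n) {p p' : ℕ} (hp : p.Prime) (hp' : p'.Prime) (hne : p ≠ p') :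
    p' ^ n.factorization p' ∣ n / p ^ n.factorization p := by
  have h1 : p ^ n.factorization p * (n / p ^ n.factorization p) = n :=
    Nat.ordProj_mul_ordCompl_eq_self n p
  have h2 : p' ^ n.factorization p' ∣ n := Nat.ordProj_dvd n p'
  rw [← h1] at h2
  have h3 : Nat.Coprime (p' ^ n.factorization p') (p ^ n.factorization p) :=
    Nat.Coprime.pow _ _ ((Nat.coprime_primes hp' hp).2 hne.symm)
  rw [h1] at h2
  have h4 : p' ^ n.factorization p' ∣ p ^ n.factorization p * (n / p ^ n.factorization p) := by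
    rw [h1]; exact h2
  exact h3.dvd_of_dvd_mul_left h4

/-- idempotents -/
theorem exists_idem {n : ℕ} (hn : 0 < n) : ∃ u : ℕ → ℤ, ∀ p : ℕ, p.Prime → p ∣ n →
    ((p ^ n.factorization p : ℕ) : ℤ) ∣ (n / p ^ n.factorization p : ℕ) * u p - 1 := by
  have h : ∀ p : ℕ, ∃ u : ℤ, p.Prime → p ∣ n →
      ((p ^ n.factorization p : ℕ) : ℤ) ∣ (n / p ^ n.factorization p : ℕ) * u - 1 := by
    intro p
    by_cases hp : p.Prime
    · have h1 : Nat.Coprime (p ^ n.factorization p) (n / p ^ n.factorization p) :=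
        (Nat.coprime_ordCompl hp hn.ne').pow_left _
      obtain ⟨a, b, hab⟩ := Nat.isCoprime_iff_coprime.2 h1
      refine ⟨b, fun _ _ => ⟨-a, ?_⟩⟩
      linear_combination hab
    · exact ⟨0, fun h => absurd h hp⟩
  choose u hu using h
  exact ⟨u, hu⟩

section

variable {K : Type u} [Field K] {n : ℕ} {ζ : K}

theorem zpow_congr {B : Type*} [CommGroup B] {β : B} {n : ℕ} (hβ : β ^ n = 1) {a b : ℤ}
    (h : (n : ℤ) ∣ a - b) : β ^ a = β ^ b := by
  obtain ⟨c, hc⟩ := h
  have : a = b + n * c := by linear_combination hc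
  rw [this, zpow_add, zpow_mul, zpow_natCast, hβ, one_zpow, mul_one]

theorem hasRep_finset {ι : Type*} (S : Finset ι) (A : ι → BrauerGroup.{u, u} K) (N : ι → ℕ)
    (h : ∀ i ∈ S, HasRep (A i) (N i)) : HasRep (∏ i ∈ S, A i) (∏ i ∈ S, N i) := by
  classical
  induction S using Finset.induction_on with
  | empty =>
    rw [Finset.prod_empty, Finset.prod_empty]
    exact hasRep_one
  | insert a S ha ih =>
    rw [Finset.prod_insert ha, Finset.prod_insert ha]
    exact (h a (Finset.mem_insert_self _ _)).mul (ih fun i hi => h i (Finset.mem_insert_of_mem hi))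

theorem prod_zpow_sum {B ι : Type*} [CommGroup B] (β : B) (S : Finset ι) (c : ι → ℤ) :
    ∏ i ∈ S, β ^ c i = β ^ ∑ i ∈ S, c i := by
  classical
  induction S using Finset.induction_on with
  | empty => simp
  | insert a S ha ih => rw [Finset.prod_insert ha, Finset.sum_insert ha, zpow_add, ih]

theorem bimul_prod {G B ι κ : Type*} [CommGroup G] [CommGroup B] (s : G →* G →* B) (S : Finset ι)
    (T : Finset κ) (A : ι → G) (A' : κ → G) :
    s (∏ i ∈ S, A i) (∏ j ∈ T, A' j) = ∏ i ∈ S, ∏ j ∈ T, s (A i) (A' j) := by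
  rw [map_prod s, MonoidHom.finsetProd_apply]
  refine Finset.prod_congr rfl fun i _ => ?_
  rw [map_prod]

/-- **Splitting in prime parts.** -/
theorem split {k : Type u} [Field k] [IsAlgClosed k] [Algebra k K] (hn : 0 < n)
    (hζ : IsPrimitiveRoot ζ n) {U V : Subgroup (BrauerGroup.{u, u} K)} {l : ℕ → ℕ}
    (h : LenAll k n ζ U V l) (α : BrauerGroup.{u, u} K) (hα : α ∈ V ⊔ U) :
    ∃ (c : ℕ → ℤ) (x y : ℕ → ℕ → Kˣ), ∃ v ∈ V,
      (∀ p ∈ n.primeFactors, (n : ℤ) ∣ c p * c p - c p) ∧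
      (∀ p ∈ n.primeFactors, ∀ p' ∈ n.primeFactors, p ≠ p' → (n : ℤ) ∣ c p * c p') ∧
      (∀ p i, l p ≤ i → x p i = 1) ∧
      α = (∏ p ∈ n.primeFactors, ∏ i ∈ Finset.range (l p),
        symHom hn hζ (x p i) (y p i) ^ c p) * v ∧
      ∀ p ∈ n.primeFactors, HasRep (∏ i ∈ Finset.range (l p),
        symHom hn hζ (x p i) (y p i) ^ c p) ((p ^ n.factorization p) ^ l p) := by
  classical
  obtain ⟨u, hu⟩ := exists_idem hn
  obtain ⟨v0, hv0, β, hβ, rfl⟩ := Subgroup.mem_sup.1 hα
  have hβn := h.1 β hβ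
  let c : ℕ → ℤ := fun p => (n / p ^ n.factorization p : ℕ) * u p
  -- the properties of the idempotents
  have hc0 : ∀ p : ℕ, p.Prime → ∀ p' : ℕ, p'.Prime → p ≠ p' →
      ((p' ^ n.factorization p' : ℕ) : ℤ) ∣ c p := by
    intro p hp p' hp' hne
    exact (Int.natCast_dvd_natCast.2 (parts_dvd hn hp hp' hne)).trans (Dvd.intro _ rfl)
  have hc1 : ∀ p ∈ n.primeFactors, (n : ℤ) ∣ c p * c p - c p := by
    intro p hp
    have hp' := Nat.prime_of_mem_primeFactors hp
    refine dvd_of_parts hn _ fun r hr hrn => ?_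
    have e : c p * c p - c p = c p * (c p - 1) := by ring
    rw [e]
    by_cases hrp : p = r
    · subst hrp
      exact (hu p hr hrn).mul_left _
    · exact (hc0 p hp' r hr hrp).mul_right _
  have hc2 : ∀ p ∈ n.primeFactors, ∀ p' ∈ n.primeFactors, p ≠ p' → (n : ℤ) ∣ c p * c p' := by
    intro p hp p' hp' hne
    have h1 := Nat.prime_of_mem_primeFactors hp
    have h2 := Nat.prime_of_mem_primeFactors hp'
    refine dvd_of_parts hn _ fun r hr hrn => ?_
    by_cases hrp : p = r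
    · subst hrp
      exact (hc0 p' h2 p h1 hne.symm).mul_left _
    · exact (hc0 p h1 r hr hrp).mul_right _
  have hc3 : (n : ℤ) ∣ ∑ p ∈ n.primeFactors, c p - 1 := by
    refine dvd_of_parts hn _ fun r hr hrn => ?_
    have hrm : r ∈ n.primeFactors := Nat.mem_primeFactors.2 ⟨hr, hrn, hn.ne'⟩
    rw [← Finset.add_sum_erase _ _ hrm, add_sub_right_comm]
    refine dvd_add (hu r hr hrn) (Finset.dvd_sum fun p hp => ?_)
    rw [Finset.mem_erase] at hp
    exact hc0 p (Nat.prime_of_mem_primeFactors hp.2) r hr hp.1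
  -- the parts
  have key : ∀ p : ℕ, ∃ (x y : ℕ → Kˣ), ∃ v ∈ V, (∀ i, l p ≤ i → x i = 1) ∧ (p ∈ n.primeFactors →
      β ^ c p = (∏ i ∈ Finset.range (l p), symHom hn hζ (x i) (y i) ^ c p) * v ∧
      HasRep (∏ i ∈ Finset.range (l p), symHom hn hζ (x i) (y i) ^ c p)
        ((p ^ n.factorization p) ^ l p)) := by
    intro p
    by_cases hp : p ∈ n.primeFactors
    swap
    · exact ⟨fun _ => 1, fun _ => 1, 1, V.one_mem, fun _ _ => rfl, fun h => absurd h hp⟩
    have hpp := Nat.prime_of_mem_primeFactors hp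
    have hpn := Nat.dvd_of_mem_primeFactors hp
    set q := p ^ n.factorization p with hqd
    set r := n / q with hrd
    have hqr : q * r = n := Nat.ordProj_mul_ordCompl_eq_self n p
    have hq : 0 < q := pow_pos hpp.pos _
    have hr : 0 < r := Nat.pos_of_ne_zero fun h0 => by
      rw [h0, mul_zero] at hqr
      exact hn.ne hqr
    have hζq : IsPrimitiveRoot (ζ ^ r) q := hζ.pow hn (by rw [mul_comm]; exact hqr.symm)
    have hs : ∀ a b : Kˣ, symHom hn hζ a b ^ r = symHom hq hζq a b := by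
      intro a b
      rw [symHom_apply, symHom_apply, ← symCl_deg hqr.symm hq hr hn hζ hζq a b, ← symHom_apply,
        ← symHom_apply, map_pow, MonoidHom.pow_apply]
    have hβr : β ^ r ∈ U.map (powMonoidHom r) := ⟨β, hβ, rfl⟩
    obtain ⟨x, y, v, hv, hxy⟩ := (h.2 p hpp hpn).rep hq hζq _ hβr
    have hcu : c p = (r : ℤ) * u p := rfl
    have hpow : ∀ a b : Kˣ, symHom hn hζ a b ^ c p = symHom hq hζq a b ^ u p := by
      intro a b
      rw [hcu, zpow_mul, zpow_natCast, hs]
    have hprod : ∏ i ∈ Finset.range (l p), symHom hn hζ (if hi : i < l p then x ⟨i, hi⟩ else 1)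
        (if hi : i < l p then y ⟨i, hi⟩ else 1) ^ c p = ∏ i, symHom hq hζq (x i) (y i) ^ u p := by
      rw [← Fin.prod_univ_eq_prod_range (fun i => symHom hn hζ (if hi : i < l p then x ⟨i, hi⟩ else 1)
        (if hi : i < l p then y ⟨i, hi⟩ else 1) ^ c p) (l p)]
      refine Finset.prod_congr rfl fun i _ => ?_
      rw [dif_pos i.2, dif_pos i.2, hpow]
    refine ⟨fun i => if hi : i < l p then x ⟨i, hi⟩ else 1, fun i => if hi : i < l p then y ⟨i, hi⟩ else 1,
      v ^ u p, V.zpow_mem hv _, fun i hi => dif_neg (not_lt.2 hi), fun _ => ⟨?_, ?_⟩⟩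
    · rw [hprod, hcu, zpow_mul, zpow_natCast, hxy, mul_zpow, Finset.prod_zpow]
    · rw [hprod]
      have e : ∏ i, symHom hq hζq (x i) (y i) ^ u p = ∏ i, symCl hq hζq (x i ^ u p) (y i) := by
        refine Finset.prod_congr rfl fun i _ => ?_
        rw [← symHom_apply, map_zpow, MonoidHom.zpow_apply]
      rw [e]
      exact hasRep_prod hq hζq _ _ _
  choose x y v hv hx hkey using key
  refine ⟨c, x, y, (∏ p ∈ n.primeFactors, v p) * v0,
    V.mul_mem (Subgroup.prod_mem _ fun p _ => hv p) hv0, hc1, hc2, hx, ?_, fun p hp => (hkey p hp).2⟩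
  have h1 : β = ∏ p ∈ n.primeFactors, β ^ c p := by
    rw [prod_zpow_sum]
    have h2 := zpow_congr hβn hc3
    rw [h2, zpow_one]
  have h2 : β = (∏ p ∈ n.primeFactors, ∏ i ∈ Finset.range (l p),
        symHom hn hζ (x p i) (y p i) ^ c p) * ∏ p ∈ n.primeFactors, v p := by
    conv_lhs => rw [h1]
    rw [← Finset.prod_mul_distrib]
    exact Finset.prod_congr rfl fun p hp => (hkey p hp).1
  rw [← mul_assoc, ← h2, mul_comm]

/-- **Symbol length, prime by prime.** -/
theorem glue {k : Type u} [Field k] [IsAlgClosed k] [Algebra k K] (hn : 0 < n)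
    (hζ : IsPrimitiveRoot ζ n) {U V : Subgroup (BrauerGroup.{u, u} K)} {l : ℕ → ℕ}
    (h : LenAll k n ζ U V l) (L : ℕ) (hL : ∀ p : ℕ, p.Prime → p ∣ n → l p ≤ L)
    (α : BrauerGroup.{u, u} K) (hα : α ∈ V ⊔ U) : SumSym n ζ L V α := by
  classical
  obtain ⟨c, x, y, v, hv, h1, h2, hx, hα', -⟩ := split hn hζ h α hα
  refine ⟨fun i => ∏ p ∈ n.primeFactors, x p i ^ c p, fun i => ∏ p ∈ n.primeFactors, y p i ^ c p, _, v,
    hv, fun i => (isSym_iff hn hζ _ _ _).2 rfl, ?_⟩
  rw [hα']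
  congr 1
  have h3 : ∀ p ∈ n.primeFactors, ∏ i ∈ Finset.range (l p), symHom hn hζ (x p i) (y p i) ^ c p =
      ∏ i : Fin L, symHom hn hζ (x p i) (y p i) ^ c p := by
    intro p hp
    rw [Fin.prod_univ_eq_prod_range (fun i => symHom hn hζ (x p i) (y p i) ^ c p) L]
    refine Finset.prod_subset (Finset.range_subset_range.2
      (hL p (Nat.prime_of_mem_primeFactors hp) (Nat.dvd_of_mem_primeFactors hp))) fun i _ hi => ?_
    rw [hx p i (not_lt.1 fun h => hi (Finset.mem_range.2 h)), map_one, MonoidHom.one_apply, one_zpow]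
  rw [Finset.prod_congr rfl h3, Finset.prod_comm]
  refine Finset.prod_congr rfl fun i _ => ?_
  rw [← symHom_apply, bimul_prod]
  refine Finset.prod_congr rfl fun p hp => ?_
  rw [Finset.prod_eq_single p]
  · rw [map_zpow, map_zpow, MonoidHom.zpow_apply, ← zpow_mul]
    exact (zpow_congr (symCl_tors hn hζ _ _) (h1 p hp)).symm
  · intro p' hp' hne
    rw [map_zpow, map_zpow, MonoidHom.zpow_apply, ← zpow_mul]
    refine (zpow_congr (symCl_tors hn hζ _ _) (b := 0) ?_).trans (zpow_zero _)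
    rw [sub_zero]
    exact h2 p hp p' hp' hne.symm
  · intro h
    exact absurd hp h

/-- **Index, prime by prime.** -/
theorem index {k : Type u} [Field k] [IsAlgClosed k] [Algebra k K] (hn : 0 < n)
    (hζ : IsPrimitiveRoot ζ n) {U V : Subgroup (BrauerGroup.{u, u} K)} {l : ℕ → ℕ}
    (h : LenAll k n ζ U V l) (N : ℕ) (hN : 0 < N) (hV : ∀ β ∈ V, IndDvd β N)
    (α : BrauerGroup.{u, u} K) (hα : α ∈ V ⊔ U) :
    IndDvd α (N * ∏ p ∈ n.primeFactors, (p ^ n.factorization p) ^ l p) := by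
  obtain ⟨c, x, y, v, hv, h1, h2, hx, hα', hrep⟩ := split hn hζ h α hα
  rw [hα', mul_comm N]
  exact ((hasRep_finset _ _ _ hrep).mul ((hV v hv).hasRep hN)).indDvd

end

end Pool.Agent.H79.LP
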