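import Pool.Agent.H79.LP.Defs
import Pool.Agent.H79.LP.Glue
import Pool.Agent.H79.LU.H19PS_J

set_option autoImplicit false
set_option linter.all false

/-!
# Symbol length for `p`-symbols
-/

open scoped TensorProduct

namespace Pool.Agent.H79.LP

open Pool.Agent.Helper18.Br Pool.Agent.H552R3.SymBr Pool.Agent.H552R3.SymPred Pool.Agent.H552R3.Tsen
  Pool.Agent.H19PS

universe u

section

variable {K : Type u} [Field K] {p : ℕ} [hp : Fact p.Prime] [CharP K p]

/-- a product of `l` `p`-symbols and an element of `V` -/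
def RepP (p : ℕ) [Fact p.Prime] {K : Type u} [Field K] [CharP K p] (l : ℕ)
    (V : Subgroup (BrauerGroup.{u, u} K)) (α : BrauerGroup.{u, u} K) : Prop :=
  ∃ (x : Fin l → K) (y : Fin l → Kˣ), ∃ v ∈ V, α = (∏ i, psCl p (x i) (y i)) * v

theorem psym_eq (S : Set K) (T : Set Kˣ) :
    PSym p S T = Subgroup.closure {γ | ∃ a ∈ S, ∃ b ∈ T, γ = psCl p a b} := by
  rw [PSym]
  congr 1
  ext γ
  simp only [Set.mem_setOf_eq, isPSym_iff]

theorem psym_mem {S : Set K} {T : Set Kˣ} {a : K} {b : Kˣ} (ha : a ∈ S) (hb : b ∈ T) :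
    psCl p a b ∈ PSym p S T := by
  rw [psym_eq]
  exact Subgroup.subset_closure ⟨a, ha, b, hb, rfl⟩

theorem repP_zero {V : Subgroup (BrauerGroup.{u, u} K)} {α : BrauerGroup.{u, u} K} (hα : α ∈ V) :
    RepP p 0 V α :=
  ⟨fun _ => 0, fun _ => 1, α, hα, by simp⟩

theorem RepP.add {l l' : ℕ} {V : Subgroup (BrauerGroup.{u, u} K)} {v : BrauerGroup.{u, u} K}
    (x : Fin l → K) (y : Fin l → Kˣ) (h : RepP p l' V v) :
    RepP p (l + l') V ((∏ i, psCl p (x i) (y i)) * v) := by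
  obtain ⟨x', y', v', hv', rfl⟩ := h
  refine ⟨Fin.append x x', Fin.append y y', v', hv', ?_⟩
  rw [Fin.prod_univ_add]
  simp only [Fin.append_left, Fin.append_right]
  rw [mul_assoc]

theorem repP_pad {l l' : ℕ} (h : l ≤ l') {V : Subgroup (BrauerGroup.{u, u} K)}
    {α : BrauerGroup.{u, u} K} (hα : RepP p l V α) : RepP p l' V α := by
  obtain ⟨d, rfl⟩ := Nat.exists_eq_add_of_le h
  obtain ⟨x, y, v, hv, rfl⟩ := hα
  refine RepP.add x y ⟨fun _ => 0, fun _ => 1, v, hv, ?_⟩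
  simp [psCl_zero_left]

theorem entriesP_rep (m : ℕ) (z : Fin m → Kˣ) (α : BrauerGroup.{u, u} K)
    (hα : α ∈ PSym p Set.univ (Set.range z)) : ∃ x : Fin m → K, α = ∏ i, psCl p (x i) (z i) := by
  classical
  let T : Subgroup (BrauerGroup.{u, u} K) :=
    { carrier := {α | ∃ x : Fin m → K, α = ∏ i, psCl p (x i) (z i)}
      mul_mem' := by
        rintro _ _ ⟨x, rfl⟩ ⟨y, rfl⟩
        refine ⟨x + y, ?_⟩
        rw [← Finset.prod_mul_distrib]
        refine Finset.prod_congr rfl fun i _ => ?_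
        rw [Pi.add_apply, psCl_add_left]
      one_mem' := ⟨0, by simp [psCl_zero_left]⟩
      inv_mem' := by
        rintro _ ⟨x, rfl⟩
        refine ⟨fun i => (-1 : ℤ) • x i, ?_⟩
        rw [← Finset.prod_inv_distrib]
        refine Finset.prod_congr rfl fun i _ => ?_
        rw [S_zsmul, zpow_neg_one] }
  have h : PSym p Set.univ (Set.range z) ≤ T := by
    rw [psym_eq, Subgroup.closure_le]
    rintro γ ⟨a, _, _, ⟨j, rfl⟩, rfl⟩
    refine ⟨Pi.single j a, ?_⟩
    rw [Finset.prod_eq_single j]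
    · rw [Pi.single_eq_same]
    · intro i _ hi
      rw [Pi.single_eq_of_ne hi, psCl_zero_left]
    · intro h
      exact absurd (Finset.mem_univ _) h
  exact h hα

theorem entriesP_rep' (m : ℕ) (a : Fin m → K) (α : BrauerGroup.{u, u} K)
    (hα : α ∈ PSym p (Set.range a) Set.univ) : ∃ y : Fin m → Kˣ, α = ∏ i, psCl p (a i) (y i) := by
  classical
  let T : Subgroup (BrauerGroup.{u, u} K) :=
    { carrier := {α | ∃ y : Fin m → Kˣ, α = ∏ i, psCl p (a i) (y i)}
      mul_mem' := by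
        rintro _ _ ⟨x, rfl⟩ ⟨y, rfl⟩
        refine ⟨x * y, ?_⟩
        rw [← Finset.prod_mul_distrib]
        refine Finset.prod_congr rfl fun i _ => ?_
        rw [Pi.mul_apply, psCl_mul_right]
      one_mem' := ⟨1, by simp [psCl_one_right]⟩
      inv_mem' := by
        rintro _ ⟨x, rfl⟩
        refine ⟨fun i => x i ^ (-1 : ℤ), ?_⟩
        rw [← Finset.prod_inv_distrib]
        refine Finset.prod_congr rfl fun i _ => ?_
        rw [S_zpow, zpow_neg_one] }
  have h : PSym p (Set.range a) Set.univ ≤ T := by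
    rw [psym_eq, Subgroup.closure_le]
    rintro γ ⟨_, ⟨j, rfl⟩, b, _, rfl⟩
    refine ⟨Pi.mulSingle j b, ?_⟩
    rw [Finset.prod_eq_single j]
    · rw [Pi.mulSingle_eq_same]
    · intro i _ hi
      rw [Pi.mulSingle_eq_of_ne hi, psCl_one_right]
    · intro h
      exact absurd (Finset.mem_univ _) h
  exact h hα

theorem prels_iff {g t : ℕ} (a : Fin g → K) (b : Fin g → Kˣ) (W : Subgroup (BrauerGroup.{u, u} K))
    (w : Fin t → Matrix (Fin g) (Fin g) ℤ) : PRels p a b W w ↔ ∀ s, Qp p a b (w s) ∈ W := by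
  have key : ∀ (θ : Fin g → Fin g → BrauerGroup.{u, u} K), (∀ i j, IsPSym p (a i) (b j) (θ i j)) →
      ∀ s, ∏ i, ∏ j, θ i j ^ w s i j = Qp p a b (w s) := by
    intro θ hθ s
    rw [Qp]
    refine Finset.prod_congr rfl fun i _ => Finset.prod_congr rfl fun j _ => ?_
    rw [(isPSym_iff (a i) (b j) (θ i j)).1 (hθ i j)]
  constructor
  · intro h s
    have h1 := h (fun i j => psCl p (a i) (b j)) (fun i j => (isPSym_iff _ _ _).2 rfl) s
    rwa [key _ (fun i j => (isPSym_iff _ _ _).2 rfl)] at h1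
  · intro h θ hθ s
    rw [key θ hθ]
    exact h s

theorem curveP_one {k : Type u} [Field k] [IsAlgClosed k] [Algebra k K] (L : IntermediateField k K)
    (hL : Algebra.trdeg k L ≤ 1) (a : K) (b : Kˣ) (ha : a ∈ L) (hb : (b : K) ∈ L) :
    psCl p a b = 1 := by
  have hdep : ¬ AlgebraicIndependent k ![a, (b : K)] := by
    intro h
    have h1 : AlgebraicIndependent k ![(⟨a, ha⟩ : L), (⟨b, hb⟩ : L)] := by
      apply AlgebraicIndependent.of_comp L.val
      convert h using 1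
      funext i
      fin_cases i <;> rfl
    have h2 := h1.lift_cardinalMk_le_trdeg
    have h3 := h2.trans (Cardinal.lift_le.2 hL)
    simp at h3
  haveI : CharP k p := (RingHom.charP_iff (algebraMap k K) (algebraMap k K).injective p).2 inferInstance
  exact tsen_ps a b hdep

theorem qp_congr {g : ℕ} (a : Fin g → K) (b : Fin g → Kˣ) (P P' : Matrix (Fin g) (Fin g) ℤ)
    (h : ∀ i j, (p : ℤ) ∣ P i j - P' i j) : Qp p a b P = Qp p a b P' := by
  rw [Qp, Qp]
  refine Finset.prod_congr rfl fun i _ => Finset.prod_congr rfl fun j _ => ?_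
  exact S_zpow_congr _ _ (h i j)

theorem qp_rank {g l : ℕ} (a : Fin g → K) (b : Fin g → Kˣ) (e f : Fin l → Fin g → ℤ) :
    Qp p a b (Matrix.of fun i j => ∑ m, e m i * f m j) =
      ∏ m, psCl p (∑ i, e m i • a i) (∏ j, b j ^ f m j) := by
  have h1 : (Matrix.of fun i j => ∑ m, e m i * f m j : Matrix (Fin g) (Fin g) ℤ) =
      ∑ m, (1 : ℤ) • Matrix.of fun i j => e m i * f m j := by
    ext i j
    rw [Matrix.of_apply, Matrix.sum_apply]
    exact Finset.sum_congr rfl fun m _ => by rw [one_smul, Matrix.of_apply]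
  rw [h1, Qp_sum]
  refine Finset.prod_congr rfl fun m _ => ?_
  rw [zpow_one, S_sum, Qp]
  refine Finset.prod_congr rfl fun i _ => ?_
  rw [S_prod]
  refine Finset.prod_congr rfl fun j _ => ?_
  rw [S_zsmul, S_zpow, Matrix.of_apply, ← zpow_mul, mul_comm (f m j)]

theorem LenP.rep {k : Type u} [Field k] [IsAlgClosed k] [Algebra k K]
    {U V : Subgroup (BrauerGroup.{u, u} K)} {l : ℕ}
    (h : LenP k p U V l) : ∀ α ∈ U, RepP p l V α := by
  classical
  have red1 : ∀ (U V V' : Subgroup (BrauerGroup.{u, u} K)) (l : ℕ), V' ≤ V →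
      (∀ α ∈ U, RepP p l V α) → ∀ α ∈ V' ⊔ U, RepP p l V α := by
    intro U V V' l hV h α hα
    obtain ⟨v, hv, β, hβ, rfl⟩ := Subgroup.mem_sup.1 hα
    obtain ⟨x, y, v', hv', rfl⟩ := h β hβ
    exact ⟨x, y, v * v', V.mul_mem (hV hv) hv', by rw [mul_left_comm]⟩
  have hgrp : ∀ (Λ : AddSubgroup K) (H : Subgroup Kˣ) (g : ℕ) (a : Fin g → K) (b : Fin g → Kˣ),
      PSym p (Λ ⊔ AddSubgroup.closure (Set.range a) : AddSubgroup K)
        (H ⊔ Subgroup.closure (Set.range b) : Subgroup Kˣ) =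
      Subgroup.closure {γ | ∃ x ∈ AddSubgroup.closure ((Λ : Set K) ∪ Set.range a),
        ∃ y ∈ Subgroup.closure ((H : Set Kˣ) ∪ Set.range b), γ = psCl p x y} := by
    intro Λ H g a b
    rw [psym_eq, AddSubgroup.closure_union, AddSubgroup.closure_eq, Subgroup.closure_union,
      Subgroup.closure_eq]
    rfl
  induction h with
  | base U V h => exact fun α hα => repP_zero (h hα)
  | mono U U' V V' l l' _ hU hV hl ih =>
    intro α hα
    obtain ⟨x, y, v, hv, rfl⟩ := ih α (hU hα)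
    exact repP_pad hl ⟨x, y, v, hV hv, rfl⟩
  | sum U U' V l l' _ _ ih ih' =>
    intro α hα
    obtain ⟨a, ha, b, hb, rfl⟩ := Subgroup.mem_sup.1 hα
    obtain ⟨x, y, v, hv, rfl⟩ := ih a ha
    obtain ⟨x', y', v', hv', rfl⟩ := ih' b hb
    rw [mul_assoc]
    exact RepP.add x y ⟨x', y', v * v', V.mul_mem hv hv', by rw [mul_left_comm]⟩
  | trans U V W l l' _ _ ih ih' =>
    intro α hα
    obtain ⟨x, y, v, hv, rfl⟩ := ih α hα
    exact RepP.add x y (ih' v hv)
  | pointwise U V l F hF _ ih => exact fun α hα => ih α hα α (hF α hα)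
  | curve L hL =>
    intro α hα
    have h1 : PSym p {x : K | x ∈ L} {y : Kˣ | (y : K) ∈ L} ≤ ⊥ := by
      rw [psym_eq, Subgroup.closure_le]
      rintro γ ⟨a, ha, b, hb, rfl⟩
      exact Subgroup.mem_bot.2 (curveP_one L hL a b ha hb)
    exact repP_zero (h1 hα)
  | powers Λ Λ' H H' hΛ hH =>
    intro α hα
    refine repP_zero ?_
    revert α
    show PSym p (Λ' : Set K) H' ≤ PSym p Λ H
    rw [psym_eq, Subgroup.closure_le]
    rintro γ ⟨a, ha, b, hb, rfl⟩
    obtain ⟨a', ha', c, rfl⟩ := hΛ a ha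
    obtain ⟨b', hb', d, rfl⟩ := hH b hb
    rw [← psCl_shift, psCl_mul_right, psCl_pow_right, mul_one]
    exact psym_mem ha' hb'
  | entries m z =>
    intro α hα
    obtain ⟨x, rfl⟩ := entriesP_rep m z α hα
    exact ⟨x, z, 1, Subgroup.one_mem _, (mul_one _).symm⟩
  | entries' m a =>
    intro α hα
    obtain ⟨y, rfl⟩ := entriesP_rep' m a α hα
    exact ⟨a, y, 1, Subgroup.one_mem _, (mul_one _).symm⟩
  | block Λ H V g t a b w hw hnd =>
    refine red1 _ _ V g le_sup_left fun α hα => ?_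
    have hw' := (prels_iff a b _ w).1 hw
    have hV : ∀ x ∈ Λ, ∀ y ∈ H, psCl p x y ∈ V ⊔ PSym p (Λ : Set K) H :=
      fun x hx y hy => Subgroup.mem_sup_right (psym_mem hx hy)
    have hlow : V ⊔ PSym p (Λ : Set K) (H ∪ Set.range b) ⊔ PSym p (Λ ∪ Set.range a) H ≤
        T0 p Λ H (V ⊔ PSym p Λ H) a b := by
      refine sup_le (sup_le (fun v hv => T0_V (Subgroup.mem_sup_left hv)) ?_) ?_
      · rw [psym_eq, Subgroup.closure_le]
        rintro γ ⟨x, hx, y, hy, rfl⟩
        rcases hy with hy | ⟨c, rfl⟩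
        · exact T0_V (hV x hx y hy)
        · exact T0_right c hx
      · rw [psym_eq, Subgroup.closure_le]
        rintro γ ⟨x, hx, y, hy, rfl⟩
        rcases hx with hx | ⟨c, rfl⟩
        · exact T0_V (hV x hx y hy)
        · exact T0_left c hy
    rw [hgrp] at hα
    exact main_sum hV w (fun s => hlow (hw' s)) (fun P => by
      haveI : NeZero p := ⟨hp.out.ne_zero⟩
      obtain ⟨c, hc⟩ := hnd (Matrix.of fun i j => ((P i j).val : ℤ))
      refine ⟨fun s => (c s : ZMod p), fun h0 => hc ?_⟩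
      rw [det_dvd_iff, red_sum]
      have e : (Matrix.of fun i j => ((P i j).val : ℤ)).map (Int.castRingHom (ZMod p)) = P := by
        ext i j
        simp
      rw [e]
      exact h0) hα
  | short Λ H V g t l a b w h1 h2 hw hsh =>
    refine red1 _ V V l le_rfl fun α hα => ?_
    have hw' := (prels_iff a b _ w).1 hw
    have hV : ∀ x ∈ Λ, ∀ y ∈ H, psCl p x y ∈ V := fun x hx y hy => h1 (psym_mem hx (Or.inl hy))
    rw [hgrp] at hα
    obtain ⟨P, t, ht, rfl⟩ := nf hV hα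
    have htV : t ∈ V := by
      obtain ⟨l', lam, hl, hlam, v, hv, rfl⟩ := ht
      refine V.mul_mem (V.mul_mem (Subgroup.prod_mem _ fun i _ => ?_)
        (Subgroup.prod_mem _ fun j _ => ?_)) hv
      · exact h2 (psym_mem (Or.inr ⟨i, rfl⟩) (hl i))
      · exact h1 (psym_mem (hlam j) (Or.inr ⟨j, rfl⟩))
    obtain ⟨c, e, f, hef⟩ := hsh P
    have h3 : Qp p a b (P + ∑ s, c s • w s) = ∏ m, psCl p (∑ i, e m i • a i) (∏ j, b j ^ f m j) := by
      rw [← qp_rank]
      exact qp_congr a b _ _ fun i j => by rw [Matrix.of_apply]; exact hef i j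
    have h4 : ∏ s, Qp p a b (w s) ^ c s ∈ V :=
      Subgroup.prod_mem _ fun s _ => V.zpow_mem (hw' s) _
    refine ⟨fun m => ∑ i, e m i • a i, fun m => ∏ j, b j ^ f m j,
      (∏ s, Qp p a b (w s) ^ c s)⁻¹ * t, V.mul_mem (V.inv_mem h4) htV, ?_⟩
    rw [← h3, Qp_add, Qp_sum, ← mul_assoc, mul_inv_cancel_right]

end

end Pool.Agent.H79.LP
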