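import Pool.Agent.H79.LP.LenMain
import Pool.Agent.H79.LP.PMain
import Pool.Agent.H79.LU.Q128_PI_AllDeg
import Pool.Agent.H79.LU.H19PS_J

set_option autoImplicit false
set_option linter.all false

/-!
# Criteria
-/

namespace Pool.Agent.H79.LP

open Pool.Agent.Y109.PI Pool.Agent.R992.PI Pool.Agent.Q128.PI

theorem nondeg_of_pfaffian {I : Type} [Fintype I] [DecidableEq I] {g t : ℕ} (w : Fin t → I → I → ℤ)
    (P : MvPolynomial (Fin t) ℤ) (p : ℕ) (hp : p.Prime) (hI : Fintype.card I = 2 * g)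
    (hP : IsPfaffian w P) (hm : NotInFrob p P) : Nondeg p w := by
  intro b
  obtain ⟨c, hc⟩ := nd_prime g hI w P hP p hp hm (alt b) (alt_dif b)
  refine ⟨c, fun h => hc ?_⟩
  rw [← red_det]
  exact (ZMod.intCast_zmod_eq_zero_iff_dvd _ _).2 h

theorem short_of_pfaffian {I : Type} [Fintype I] [DecidableEq I] {g t : ℕ} (w : Fin t → I → I → ℤ)
    (P : MvPolynomial (Fin t) ℤ) (p : ℕ) (hp : p.Prime) (hg : 0 < g) (hI : Fintype.card I = 2 * g)
    (hP : IsPfaffian w P) (hm : NotInFrob p (P ^ (p - 1))) : Short p (g - 1) w := by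
  intro b
  obtain ⟨c, e, f, h⟩ := fed_deg p g hp.prime.squarefree hg hI w P hP (fun p' hp' hpp => by
    rw [(Nat.prime_dvd_prime_iff_eq hp' hp).1 hpp]
    exact hm) (alt b) (alt_dif b)
  refine ⟨c, e, f, fun u v => ?_⟩
  have h1 := h u v
  rw [Matrix.sum_apply] at h1
  exact h1

theorem short_free {I : Type} [Fintype I] {t : ℕ} (w : Fin t → I → I → ℤ) (q : ℕ) :
    Short q (Fintype.card I / 2) w := by
  classical
  intro b
  obtain ⟨e, f, h⟩ := decomp (R := ℤ) (K := ℚ) (algebraMap ℤ ℚ).injective_int (Fintype.card I / 2) (alt b)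
    (alt_dif b) (by
      refine (Matrix.rank_le_card_width _).trans ?_
      omega)
  refine ⟨0, e, f, fun u v => ?_⟩
  have h1 : (alt b + ∑ j, (0 : Fin t → ℤ) j • alt (w j)) u v = ∑ i, (e i u * f i v - f i u * e i v) := by
    have e1 : (alt b + ∑ j, (0 : Fin t → ℤ) j • alt (w j)) = alt b := by
      simp
    rw [e1, h, Matrix.sum_apply]
    rfl
  rw [h1, sub_self]
  exact dvd_zero _

universe v

theorem short_rm {O : Type v} [CommRing O] {g : ℕ} (ε : Module.Basis (Fin g) ℤ O) (hg : 0 < g) (q : ℕ)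
    (hq : 0 < q) (hd : ∀ p : ℕ, p.Prime → p ∣ q → ¬ (p : ℤ) ∣ Algebra.discr ℤ ε)
    (hφ : ∀ p : ℕ, p.Prime → p ^ 2 ∣ q → Nonempty (O →+* ZMod p)) :
    Short q (g - 1) (rmw ε) := by
  intro b
  obtain ⟨c, e, f, h⟩ := deg_all ε hg q hq hd hφ (alt b) (alt_dif b)
  refine ⟨c, e, f, fun u v => ?_⟩
  have h1 := h u v
  rw [Matrix.sum_apply] at h1
  exact h1

theorem p_one {g p : ℕ} (hp : p.Prime) (hg : g < p) (w : Matrix (Fin g) (Fin g) ℤ)
    (hw : ¬ (p : ℤ) ∣ w.det) : PNondeg p (fun _ : Fin 1 => w) := by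
  haveI : Fact p.Prime := ⟨hp⟩
  haveI : NeZero p := ⟨hp.ne_zero⟩
  intro P
  obtain ⟨c, hc⟩ := Pool.Agent.H19PS.cond_one hg (w.map (Int.castRingHom (ZMod p)))
    (P.map (Int.castRingHom (ZMod p))) (fun h => hw ((Pool.Agent.H19PS.det_dvd_iff w).2 h))
  refine ⟨fun _ => (c.val : ℤ), fun h => hc ?_⟩
  rw [Pool.Agent.H19PS.det_dvd_iff, Pool.Agent.H19PS.red_sum] at h
  simpa using h

theorem p_many {g p : ℕ} (hp : p.Prime) (hg : 0 < g) (w : Fin g → Matrix (Fin g) (Fin g) ℤ)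
    (hw : ¬ p ∣ Nat.card {c : Fin g → ZMod p //
      (∑ k, c k • (w k).map (Int.castRingHom (ZMod p))).det = 0}) : PNondeg p w := by
  haveI : Fact p.Prime := ⟨hp⟩
  haveI : NeZero p := ⟨hp.ne_zero⟩
  intro P
  obtain ⟨c, hc⟩ := (Pool.Agent.H19PS.cond_many hg (fun k => (w k).map (Int.castRingHom (ZMod p)))
    (P.map (Int.castRingHom (ZMod p))) hw).2
  refine ⟨fun k => ((c k).val : ℤ), fun h => hc ?_⟩
  rw [Pool.Agent.H19PS.det_dvd_iff, Pool.Agent.H19PS.red_sum] at h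
  simpa using h

end Pool.Agent.H79.LP
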