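import Mathlib
import Pool.Agent.H79.LU.H552R3_SymPred
import Pool.Agent.H79.LU.H19PS_D

set_option autoImplicit false

/-!
# Symbol length and index, prime by prime: definitions
-/

namespace Pool.Agent.H79.LP

open Pool.Agent.H552R3.SymBr Pool.Agent.H552R3.SymPred Pool.Agent.H19PS

universe u

section

variable {K : Type u} [Field K]

/-- The subgroup of `Br(K)` generated by the symbols `(a, b)` of degree `q` with `a ∈ S`, `b ∈ T`. -/
def Sym (q : ℕ) (ζ : K) (S T : Set Kˣ) : Subgroup (BrauerGroup.{u, u} K) :=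
  Subgroup.closure {γ | ∃ a ∈ S, ∃ b ∈ T, IsSym q ζ a b γ}

/-- The subgroup of `Br(K)` generated by the `p`-symbols `[a, b)` with `a ∈ S`, `b ∈ T`; here
`p = char K` and `[a, b)` is the class of the algebra `x ^ p - x = a`, `y ^ p = b`, `y x = (x + 1) y`. -/
def PSym (p : ℕ) (S : Set K) (T : Set Kˣ) : Subgroup (BrauerGroup.{u, u} K) :=
  Subgroup.closure {γ | ∃ a ∈ S, ∃ b ∈ T, IsPSym p a b γ}

/-- `α` is the sum of `l` symbols of degree `q` and an element of `V`. -/
def SumSym (q : ℕ) (ζ : K) (l : ℕ) (V : Subgroup (BrauerGroup.{u, u} K))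
    (α : BrauerGroup.{u, u} K) : Prop :=
  ∃ (x y : Fin l → Kˣ) (σ : Fin l → BrauerGroup.{u, u} K), ∃ v ∈ V,
    (∀ i, IsSym q ζ (x i) (y i) (σ i)) ∧ α = (∏ i, σ i) * v

/-- `α` is the sum of `l` `p`-symbols and an element of `V`. -/
def SumPSym (p l : ℕ) (V : Subgroup (BrauerGroup.{u, u} K)) (α : BrauerGroup.{u, u} K) : Prop :=
  ∃ (x : Fin l → K) (y : Fin l → Kˣ) (σ : Fin l → BrauerGroup.{u, u} K), ∃ v ∈ V,
    (∀ i, IsPSym p (x i) (y i) (σ i)) ∧ α = (∏ i, σ i) * v

/-- The sums `∑ w_j(a, b) (z_a, z_b)` of symbols of degree `q` are in `W`. -/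
def Rels (q : ℕ) (ζ : K) {I : Type} [Fintype I] (z : I → Kˣ) (W : Subgroup (BrauerGroup.{u, u} K))
    {t : ℕ} (w : Fin t → I → I → ℤ) : Prop :=
  ∀ θ : I → I → BrauerGroup.{u, u} K, (∀ a b, IsSym q ζ (z a) (z b) (θ a b)) →
    ∀ j, ∏ a, ∏ b, θ a b ^ w j a b ∈ W

/-- The sums `∑ w_j(i, i') [a_i, b_i')` are in `W`. -/
def PRels (p : ℕ) {g t : ℕ} (a : Fin g → K) (b : Fin g → Kˣ) (W : Subgroup (BrauerGroup.{u, u} K))
    (w : Fin t → Matrix (Fin g) (Fin g) ℤ) : Prop :=
  ∀ θ : Fin g → Fin g → BrauerGroup.{u, u} K, (∀ i j, IsPSym p (a i) (b j) (θ i j)) →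
    ∀ s, ∏ i, ∏ j, θ i j ^ w s i j ∈ W

end

/-- The alternating part `w - wᵀ` of `w`. -/
def alt {I : Type} (w : I → I → ℤ) : Matrix I I ℤ := Matrix.of fun a b => w a b - w b a

/-- Every alternating matrix becomes nondegenerate modulo `p` after adding a combination of the
alternating matrices `w_j - w_jᵀ`. -/
def Nondeg (p : ℕ) {I : Type} [Fintype I] [DecidableEq I] {t : ℕ} (w : Fin t → I → I → ℤ) : Prop :=
  ∀ b : I → I → ℤ, ∃ c : Fin t → ℤ, ¬ (p : ℤ) ∣ (alt b + ∑ j, c j • alt (w j)).det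

/-- Every alternating matrix is modulo `q` and modulo the combinations of the alternating matrices
`w_j - w_jᵀ` the sum of `l` matrices of the form `e fᵀ - f eᵀ`. -/
def Short (q l : ℕ) {I : Type} {t : ℕ} (w : Fin t → I → I → ℤ) : Prop :=
  ∀ b : I → I → ℤ, ∃ (c : Fin t → ℤ) (e f : Fin l → I → ℤ), ∀ u v,
    (q : ℤ) ∣ (alt b + ∑ j, c j • alt (w j)) u v - ∑ i, (e i u * f i v - f i u * e i v)

/-- Every matrix becomes nondegenerate modulo `p` after adding a combination of the `w_s`. -/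
def PNondeg (p : ℕ) {g t : ℕ} (w : Fin t → Matrix (Fin g) (Fin g) ℤ) : Prop :=
  ∀ P : Matrix (Fin g) (Fin g) ℤ, ∃ c : Fin t → ℤ, ¬ (p : ℤ) ∣ (P + ∑ s, c s • w s).det

/-- Every matrix has modulo `p` and modulo the combinations of the `w_s` rank at most `l`. -/
def PShort (p l : ℕ) {g t : ℕ} (w : Fin t → Matrix (Fin g) (Fin g) ℤ) : Prop :=
  ∀ P : Matrix (Fin g) (Fin g) ℤ, ∃ (c : Fin t → ℤ) (e f : Fin l → Fin g → ℤ), ∀ i j,
    (p : ℤ) ∣ (P + ∑ s, c s • w s) i j - ∑ m, e m i * f m j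

/-- `P` is the Pfaffian of the generic combination of the matrices `w_j - w_jᵀ`, up to sign. -/
def IsPfaffian {I : Type} [Fintype I] [DecidableEq I] {t : ℕ} (w : Fin t → I → I → ℤ)
    (P : MvPolynomial (Fin t) ℤ) : Prop :=
  P ^ 2 = (Matrix.of fun a b => ∑ j, MvPolynomial.C (w j a b - w j b a) * MvPolynomial.X j :
    Matrix I I (MvPolynomial (Fin t) ℤ)).det

/-- `P` is not in the ideal `(p, X_1 ^ p, …, X_t ^ p)`. -/
def NotInFrob (p : ℕ) {t : ℕ} (P : MvPolynomial (Fin t) ℤ) : Prop :=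
  ∃ m : Fin t →₀ ℕ, (∀ j, m j < p) ∧ ¬ (p : ℤ) ∣ P.coeff m

/-- `Len k q ζ U V l`, for an extension `K` of `k`, a primitive `q`-th root of unity `ζ ∈ K` and
subgroups `U` and `V` of `Br(K)`: it is obtained with the following rules that every class in `U` is
the sum of `l` symbols of degree `q` and an element of `V`.

* `base`: `U ⊆ V`, `l = 0`; `mono`: smaller `U`, larger `V`, larger `l`.
* `sum`: `(U, V, l)`, `(U', V, l')` give `(U + U', V, l + l')`.
* `trans`: `(U, V, l)`, `(V, W, l')` give `(U, W, l + l')`.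
* `pointwise`: `(U, V, l)`, if every class `α` in `U` is in a group `F α` with `(F α, V, l)`; so the
  derivation may depend on the class.
* `curve`: the symbols with entries in a field `L` of transcendence degree at most one over `k` vanish.
* `powers`: the entries of symbols can be multiplied by `q`-th powers.
* `degree`: `r` times a symbol of degree `q r` is a symbol of degree `q` with the same entries.
* `entries`: the symbols with one entry among `z_1, …, z_m` generate a group of classes of length `m`.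
* `block`: Let `z_a` (`a ∈ I`, `#I = 2 g`) be elements of `Kˣ` and let `w_j` be integral matrices
  such that the sums `∑ w_j(a, b) (z_a, z_b)` are in the group generated by `V` and the symbols
  with one entry in `G` and the other one in `G` or among the `z_a`, and that `Nondeg p w` holds
  for the prime divisors `p` of `q`. Then the classes generated by `V` and the symbols with entries
  in `G ⟨z⟩` have length `g` modulo those generated by `V` and the symbols with entries in `G`.
* `short`: Let the sums `∑ w_j(a, b) (z_a, z_b)` and all symbols with one entry in `G` and the other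
  one in `G` or among the `z_a` be in `V`, and let `Short q l w` hold. Then the classes generated by `V`
  and the symbols with entries in `G ⟨z⟩` have length `l` modulo `V`. -/
inductive Len (k : Type u) [Field k] {K : Type u} [Field K] [Algebra k K] (q : ℕ) (ζ : K) :
    Subgroup (BrauerGroup.{u, u} K) → Subgroup (BrauerGroup.{u, u} K) → ℕ → Prop
  | base (U V : Subgroup (BrauerGroup.{u, u} K)) : U ≤ V → Len k q ζ U V 0
  | mono (U U' V V' : Subgroup (BrauerGroup.{u, u} K)) (l l' : ℕ) : Len k q ζ U V l → U' ≤ U →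
      V ≤ V' → l ≤ l' → Len k q ζ U' V' l'
  | sum (U U' V : Subgroup (BrauerGroup.{u, u} K)) (l l' : ℕ) : Len k q ζ U V l →
      Len k q ζ U' V l' → Len k q ζ (U ⊔ U') V (l + l')
  | trans (U V W : Subgroup (BrauerGroup.{u, u} K)) (l l' : ℕ) : Len k q ζ U V l →
      Len k q ζ V W l' → Len k q ζ U W (l + l')
  | pointwise (U V : Subgroup (BrauerGroup.{u, u} K)) (l : ℕ)
      (F : BrauerGroup.{u, u} K → Subgroup (BrauerGroup.{u, u} K)) : (∀ α ∈ U, α ∈ F α) →
      (∀ α ∈ U, Len k q ζ (F α) V l) → Len k q ζ U V l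
  | curve (L : IntermediateField k K) : Algebra.trdeg k L ≤ 1 →
      Len k q ζ (Sym q ζ {a | (a : K) ∈ L} {a | (a : K) ∈ L}) ⊥ 0
  | powers (G G' : Subgroup Kˣ) : (∀ a ∈ G', ∃ b ∈ G, ∃ c : Kˣ, a = b * c ^ q) →
      Len k q ζ (Sym q ζ G' G') (Sym q ζ G G) 0
  | degree (r : ℕ) (ξ : K) (S T : Set Kˣ) : 0 < r → IsPrimitiveRoot ξ (q * r) → ζ = ξ ^ r →
      Len k q ζ ((Sym (q * r) ξ S T).map (powMonoidHom r)) (Sym q ζ S T) 0
  | entries (m : ℕ) (z : Fin m → Kˣ) : Len k q ζ (Sym q ζ Set.univ (Set.range z)) ⊥ m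
  | block (G : Subgroup Kˣ) (V : Subgroup (BrauerGroup.{u, u} K)) (g t : ℕ) (I : Type) [Fintype I]
      [DecidableEq I] (z : I → Kˣ) (w : Fin t → I → I → ℤ) : Fintype.card I = 2 * g →
      Rels q ζ z (V ⊔ Sym q ζ G (G ∪ Set.range z)) w → (∀ p : ℕ, p.Prime → p ∣ q → Nondeg p w) →
      Len k q ζ (V ⊔ Sym q ζ (G ⊔ Subgroup.closure (Set.range z) : Subgroup Kˣ)
        (G ⊔ Subgroup.closure (Set.range z) : Subgroup Kˣ)) (V ⊔ Sym q ζ G G) g
  | short (G : Subgroup Kˣ) (V : Subgroup (BrauerGroup.{u, u} K)) (l t : ℕ) (I : Type) [Fintype I]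
      [DecidableEq I] (z : I → Kˣ) (w : Fin t → I → I → ℤ) : Sym q ζ G (G ∪ Set.range z) ≤ V →
      Rels q ζ z V w → Short q l w →
      Len k q ζ (V ⊔ Sym q ζ (G ⊔ Subgroup.closure (Set.range z) : Subgroup Kˣ)
        (G ⊔ Subgroup.closure (Set.range z) : Subgroup Kˣ)) V l

/-- `LenP k p U V l`: the same for `p`-symbols, `p = char K`. In `powers` the first entries can be
changed by elements `c ^ p - c` and the second ones by `p`-th powers; `entries'` is `entries` for the
first entries; in `block` and `short` the elements `a_1, …, a_g` are adjoined to the additive group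
`Λ` and `b_1, …, b_g` to the multiplicative group `H`. -/
inductive LenP (k : Type u) [Field k] {K : Type u} [Field K] [Algebra k K] (p : ℕ) :
    Subgroup (BrauerGroup.{u, u} K) → Subgroup (BrauerGroup.{u, u} K) → ℕ → Prop
  | base (U V : Subgroup (BrauerGroup.{u, u} K)) : U ≤ V → LenP k p U V 0
  | mono (U U' V V' : Subgroup (BrauerGroup.{u, u} K)) (l l' : ℕ) : LenP k p U V l → U' ≤ U →
      V ≤ V' → l ≤ l' → LenP k p U' V' l'
  | sum (U U' V : Subgroup (BrauerGroup.{u, u} K)) (l l' : ℕ) : LenP k p U V l →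
      LenP k p U' V l' → LenP k p (U ⊔ U') V (l + l')
  | trans (U V W : Subgroup (BrauerGroup.{u, u} K)) (l l' : ℕ) : LenP k p U V l →
      LenP k p V W l' → LenP k p U W (l + l')
  | pointwise (U V : Subgroup (BrauerGroup.{u, u} K)) (l : ℕ)
      (F : BrauerGroup.{u, u} K → Subgroup (BrauerGroup.{u, u} K)) : (∀ α ∈ U, α ∈ F α) →
      (∀ α ∈ U, LenP k p (F α) V l) → LenP k p U V l
  | curve (L : IntermediateField k K) : Algebra.trdeg k L ≤ 1 →
      LenP k p (PSym p {x | x ∈ L} {y | (y : K) ∈ L}) ⊥ 0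
  | powers (Λ Λ' : AddSubgroup K) (H H' : Subgroup Kˣ) :
      (∀ a ∈ Λ', ∃ b ∈ Λ, ∃ c : K, a = b + (c ^ p - c)) →
      (∀ a ∈ H', ∃ b ∈ H, ∃ c : Kˣ, a = b * c ^ p) → LenP k p (PSym p Λ' H') (PSym p Λ H) 0
  | entries (m : ℕ) (z : Fin m → Kˣ) : LenP k p (PSym p Set.univ (Set.range z)) ⊥ m
  | entries' (m : ℕ) (a : Fin m → K) : LenP k p (PSym p (Set.range a) Set.univ) ⊥ m
  | block (Λ : AddSubgroup K) (H : Subgroup Kˣ) (V : Subgroup (BrauerGroup.{u, u} K)) (g t : ℕ)
      (a : Fin g → K) (b : Fin g → Kˣ) (w : Fin t → Matrix (Fin g) (Fin g) ℤ) :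
      PRels p a b (V ⊔ PSym p Λ (H ∪ Set.range b) ⊔ PSym p (Λ ∪ Set.range a) H) w → PNondeg p w →
      LenP k p (V ⊔ PSym p (Λ ⊔ AddSubgroup.closure (Set.range a) : AddSubgroup K)
        (H ⊔ Subgroup.closure (Set.range b) : Subgroup Kˣ)) (V ⊔ PSym p Λ H) g
  | short (Λ : AddSubgroup K) (H : Subgroup Kˣ) (V : Subgroup (BrauerGroup.{u, u} K)) (g t l : ℕ)
      (a : Fin g → K) (b : Fin g → Kˣ) (w : Fin t → Matrix (Fin g) (Fin g) ℤ) :
      PSym p Λ (H ∪ Set.range b) ≤ V → PSym p (Λ ∪ Set.range a) H ≤ V → PRels p a b V w →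
      PShort p l w → LenP k p (V ⊔ PSym p (Λ ⊔ AddSubgroup.closure (Set.range a) : AddSubgroup K)
        (H ⊔ Subgroup.closure (Set.range b) : Subgroup Kˣ)) V l

/-- The classes in `U` have orders dividing `n`, and for every prime divisor `p` of `n` the triple
`((n / p ^ e) U, V, l p)` satisfies `Len` for the symbols of degree `p ^ e`, `e` the exponent of `p` in
`n`, and the root of unity `ζ ^ (n / p ^ e)`. The derivations for different `p` have nothing to do with
each other. -/
def LenAll (k : Type u) [Field k] {K : Type u} [Field K] [Algebra k K] (n : ℕ) (ζ : K)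
    (U V : Subgroup (BrauerGroup.{u, u} K)) (l : ℕ → ℕ) : Prop :=
  (∀ α ∈ U, α ^ n = 1) ∧ ∀ p : ℕ, p.Prime → p ∣ n →
    Len k (p ^ n.factorization p) (ζ ^ (n / p ^ n.factorization p))
      (U.map (powMonoidHom (n / p ^ n.factorization p))) V (l p)

/-- `Ind k K V N`: the bound `N` for the index of all classes in the subgroup `V` of `Br(K)` is obtained by
the following rules.

* `bot`: `V = 0`, `N = 1`. `mono`: smaller `V`, multiples of `N`. `sum`: `(V, N)` and `(V', N')`
  give `(V + V', N N')`. `pointwise`: the derivation may depend on the class.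
* `symbols`: `(V, N)` gives `(V + U, N ∏ (p ^ e) ^ (l p))`, if `LenAll k n ζ U V l` holds.
* `psymbols`: `(V, N)` gives `(V + U, N p ^ l)`, if `p = char K` and `LenP k p U V l` holds.
* `ext`: from `K` to an extension `K'` and the restrictions of the classes.
* `finite`: from a finite extension `M` of `K` of degree `m m'` to `K`: `(V', N)` gives `(V, m N)`, if the
  restrictions of the classes in `V` are in `V'` and their indices divide powers of a number which is
  prime to `m'`. -/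
inductive Ind (k : Type u) [Field k] : (K : Type u) → [Field K] → [Algebra k K] →
    Subgroup (BrauerGroup.{u, u} K) → ℕ → Prop
  | bot (K : Type u) [Field K] [Algebra k K] : Ind k K ⊥ 1
  | mono (K : Type u) [Field K] [Algebra k K] (V V' : Subgroup (BrauerGroup.{u, u} K)) (N N' : ℕ) :
      Ind k K V N → V' ≤ V → N ∣ N' → 0 < N' → Ind k K V' N'
  | sum (K : Type u) [Field K] [Algebra k K] (V V' : Subgroup (BrauerGroup.{u, u} K)) (N N' : ℕ) :
      Ind k K V N → Ind k K V' N' → Ind k K (V ⊔ V') (N * N')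
  | pointwise (K : Type u) [Field K] [Algebra k K] (V : Subgroup (BrauerGroup.{u, u} K)) (N : ℕ)
      (F : BrauerGroup.{u, u} K → Subgroup (BrauerGroup.{u, u} K)) : 0 < N → (∀ α ∈ V, α ∈ F α) →
      (∀ α ∈ V, Ind k K (F α) N) → Ind k K V N
  | symbols (K : Type u) [Field K] [Algebra k K] (U V : Subgroup (BrauerGroup.{u, u} K)) (N n : ℕ)
      (ζ : K) (l : ℕ → ℕ) : Ind k K V N → 0 < n → IsPrimitiveRoot ζ n → LenAll k n ζ U V l →
      Ind k K (V ⊔ U) (N * ∏ p ∈ n.primeFactors, (p ^ n.factorization p) ^ l p)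
  | psymbols (K : Type u) [Field K] [Algebra k K] (U V : Subgroup (BrauerGroup.{u, u} K))
      (N p l : ℕ) : Ind k K V N → p.Prime → CharP K p → LenP k p U V l →
      Ind k K (V ⊔ U) (N * p ^ l)
  | ext (K K' : Type u) [Field K] [Algebra k K] [Field K'] [Algebra k K'] [Algebra K K']
      [IsScalarTower k K K'] (V : Subgroup (BrauerGroup.{u, u} K)) (N : ℕ) : Ind k K V N →
      Ind k K' (V.map (res K')) N
  | finite (K M : Type u) [Field K] [Algebra k K] [Field M] [Algebra k M] [Algebra K M]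
      [IsScalarTower k K M] [FiniteDimensional K M] (V : Subgroup (BrauerGroup.{u, u} K))
      (V' : Subgroup (BrauerGroup.{u, u} M)) (N A m m' : ℕ) : Ind k M V' N →
      (∀ α ∈ V, res M α ∈ V') → Module.finrank K M = m * m' → m'.Coprime A →
      (∀ α ∈ V, ∃ r : ℕ, IndDvd α (A ^ r)) → Ind k K V (m * N)

end Pool.Agent.H79.LP
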