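import Mathlib
import Pool.Agent.H79.LU.H552R3_SymPred

set_option autoImplicit false
set_option linter.all false

/-!
# Symbols of different degrees

`(a ^ r, b)` of degree `q r` is `(a, b)` of degree `q`.
-/

open scoped TensorProduct

namespace Pool.Agent.H79.LP

open Pool.Agent.Helper18.Br Pool.Agent.H552R3.SymBr Pool.Agent.H552R3.SymPred
  Pool.Agent.Helper346.Bra

universe u

section shift

variable {S : Type u} [Ring S] (r : ℕ) (Y : S)

/-- the shift with the last entry `Y` -/
def shf : Matrix (Fin r) (Fin r) S := fun i j =>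
  if (j : ℕ) = i + 1 then 1 else if (j : ℕ) + r = i + 1 then Y else 0

theorem shf_pow : ∀ k : ℕ, k ≤ r → ∀ i j : Fin r, (shf r Y ^ k) i j =
    if (j : ℕ) = i + k then 1 else if (j : ℕ) + r = i + k then Y else 0 := by
  intro k
  induction k with
  | zero =>
    intro _ i j
    rw [pow_zero, Matrix.one_apply]
    by_cases h : i = j
    · subst h
      simp
    · rw [if_neg h, if_neg (fun h1 => h (Fin.ext (by omega))), if_neg (by omega)]
  | succ k ih =>
    intro hk i j
    have ih' := ih (by omega)
    rw [pow_succ', Matrix.mul_apply]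
    by_cases hi : (i : ℕ) + 1 < r
    · rw [Finset.sum_eq_single (⟨i + 1, hi⟩ : Fin r)]
      · rw [ih']
        have h1 : shf r Y i ⟨i + 1, hi⟩ = 1 := by
          simp [shf]
        rw [h1, one_mul]
        have e1 : ((j : ℕ) = ((⟨i + 1, hi⟩ : Fin r) : ℕ) + k) ↔ ((j : ℕ) = i + (k + 1)) := by
          show ((j : ℕ) = (i + 1) + k) ↔ _
          omega
        have e2 : ((j : ℕ) + r = ((⟨i + 1, hi⟩ : Fin r) : ℕ) + k) ↔ ((j : ℕ) + r = i + (k + 1)) := by
          show ((j : ℕ) + r = (i + 1) + k) ↔ _
          omega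
        simp only [e1, e2]
      · intro l _ hl
        have h1 : shf r Y i l = 0 := by
          rw [shf, if_neg (fun h => hl (Fin.ext h)), if_neg]
          have := l.2
          omega
        rw [h1, zero_mul]
      · intro h
        exact absurd (Finset.mem_univ _) h
    · have hi' : (i : ℕ) + 1 = r := by
        have := i.2
        omega
      have hr : 0 < r := by omega
      rw [Finset.sum_eq_single (⟨0, hr⟩ : Fin r)]
      · rw [ih']
        have h1 : shf r Y i ⟨0, hr⟩ = Y := by
          rw [shf, if_neg (by simp), if_pos (by simp; omega)]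
        rw [h1]
        have hj := j.2
        by_cases h2 : (j : ℕ) = k
        · rw [if_pos (by simp [h2]), mul_one, if_neg (by omega), if_pos (by omega)]
        · rw [if_neg (by simpa using h2), if_neg (by simp; omega), mul_zero, if_neg (by omega),
            if_neg (by omega)]
      · intro l _ hl
        have h1 : shf r Y i l = 0 := by
          have h3 : (l : ℕ) ≠ 0 := fun h => hl (Fin.ext h)
          have := l.2
          rw [shf, if_neg (by omega), if_neg (by omega)]
        rw [h1, zero_mul]
      · intro h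
        exact absurd (Finset.mem_univ _) h

theorem shf_pow_self (hr : 0 < r) : shf r Y ^ r = Matrix.scalar (Fin r) Y := by
  ext i j
  rw [shf_pow r Y r le_rfl, Matrix.scalar_apply, Matrix.diagonal_apply]
  by_cases h : i = j
  · subst h
    simp [hr.ne']
  · have := j.2
    have h1 : (i : ℕ) ≠ j := fun h1 => h (Fin.ext h1)
    rw [if_neg (by omega), if_neg (by omega), if_neg h]

end shift

/-- **Symbols of different degrees.** -/
theorem symCl_deg {K : Type u} [Field K] {q r n : ℕ} (hqr : n = q * r) (hq : 0 < q) (hr : 0 < r) (hn : 0 < n)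
    {ζ : K} (hζ : IsPrimitiveRoot ζ n) (hζq : IsPrimitiveRoot (ζ ^ r) q) (a b : Kˣ) :
    symCl hn hζ (a ^ r) b = symCl hq hζq a b := by
  classical
  subst hqr
  symm
  rw [← isSym_iff]
  have h := symb_csa q hq (ζ ^ r) (a : K) (b : K) hζq (n_ne_zero hq hζq) a.ne_zero b.ne_zero
  haveI : Algebra.IsCentral K (Symb K q (ζ ^ r) (a : K) (b : K)) := h.1
  haveI : IsSimpleRing (Symb K q (ζ ^ r) (a : K) (b : K)) := h.2.1
  haveI : FiniteDimensional K (Symb K q (ζ ^ r) (a : K) (b : K)) := h.2.2.1
  haveI : NeZero r := ⟨hr.ne'⟩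
  haveI : Nonempty (Fin r) := ⟨0⟩
  set S := Symb K q (ζ ^ r) (a : K) (b : K) with hS
  let X : S := gx K q (ζ ^ r) (a : K) (b : K)
  let Y : S := gy K q (ζ ^ r) (a : K) (b : K)
  have hX : X ^ q = algebraMap K S (a : K) := gx_pow
  have hY : Y ^ q = algebraMap K S (b : K) := gy_pow
  have hYX : Y * X = ζ ^ r • (X * Y) := gyx (a : K) (b : K)
  haveI : Algebra.IsCentral K (Matrix (Fin r) (Fin r) S) := inferInstance
  haveI : IsSimpleRing (Matrix (Fin r) (Fin r) S) := inferInstance
  haveI : FiniteDimensional K (Matrix (Fin r) (Fin r) S) := inferInstance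
  refine ⟨Matrix (Fin r) (Fin r) S, inferInstance, inferInstance, inferInstance, inferInstance,
    inferInstance, ?_, ?_, Matrix.diagonal fun i : Fin r => ζ ^ (i : ℕ) • X, shf r Y, ?_, ?_, ?_⟩
  · rw [Module.finrank_matrix, h.2.2.2]
    simp
    ring
  · exact brauerClass_eq_iff.2 (BrEq.of_matrix hr.ne' AlgEquiv.refl)
  · rw [Matrix.diagonal_pow, Matrix.algebraMap_eq_diagonal]
    congr 1
    funext i
    rw [Pi.pow_apply, Pi.algebraMap_apply, smul_pow, ← pow_mul, mul_comm ((i : ℕ)) (q * r), pow_mul,
      hζ.pow_eq_one, one_pow, one_smul, pow_mul, hX, ← map_pow, Units.val_pow_eq_pow_val]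
  · rw [mul_comm q r, pow_mul, shf_pow_self r Y hr, ← map_pow, hY, Matrix.algebraMap_eq_diagonal]
    rfl
  · ext i j
    rw [Matrix.mul_diagonal, Matrix.smul_apply, Matrix.diagonal_mul, shf]
    by_cases h1 : (j : ℕ) = i + 1
    · rw [if_pos h1, one_mul, mul_one, smul_smul, h1, pow_succ']
    · rw [if_neg h1]
      by_cases h2 : (j : ℕ) + r = i + 1
      · rw [if_pos h2]
        have h3 : (j : ℕ) = 0 := by
          have := i.2
          omega
        have h4 : (i : ℕ) + 1 = r := by omega
        rw [h3, pow_zero, one_smul, hYX, smul_mul_assoc, smul_smul, ← pow_succ', h4]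
      · rw [if_neg h2, zero_mul, mul_zero, smul_zero]

end Pool.Agent.H79.LP
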