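import Pool.Agent.H79.LP.Glue
import Pool.Agent.H79.LP.PMain
import Pool.Agent.H79.LU.X213_PI_Trans

set_option autoImplicit false
set_option linter.all false

/-!
# The index bounds
-/

open scoped TensorProduct

namespace Pool.Agent.H79.LP

open Pool.Agent.Helper18.Br Pool.Agent.H552R3.SymBr Pool.Agent.H552R3.SymPred Pool.Agent.H552R3.Tsen
  Pool.Agent.Y109.PI Pool.Agent.R992.PI

universe u

theorem Ind.main {k : Type u} [Field k] [IsAlgClosed k] {K : Type u} [Field K] [Algebra k K]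
    {V : Subgroup (BrauerGroup.{u, u} K)} {N : ℕ} (h : Ind k K V N) :
    0 < N ∧ ∀ α ∈ V, IndDvd α N := by
  induction h with
  | bot K =>
    refine ⟨one_pos, fun α hα => ?_⟩
    rw [Subgroup.mem_bot] at hα
    subst hα
    exact hasRep_one.indDvd
  | mono K V V' N N' _ hV hN hN' ih =>
    refine ⟨hN', fun α hα => ?_⟩
    intro D _ _ _ _ hD
    exact (ih.2 α (hV hα) D hD).trans hN
  | sum K V V' N N' _ _ ih ih' =>
    refine ⟨Nat.mul_pos ih.1 ih'.1, fun α hα => ?_⟩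
    obtain ⟨v, hv, v', hv', rfl⟩ := Subgroup.mem_sup.1 hα
    exact (((ih.2 v hv).hasRep ih.1).mul ((ih'.2 v' hv').hasRep ih'.1)).indDvd
  | pointwise K V N F hN hF _ ih => exact ⟨hN, fun α hα => (ih α hα).2 α (hF α hα)⟩
  | symbols K U V N n ζ l _ hn hζ h ih =>
    refine ⟨Nat.mul_pos ih.1 (Finset.prod_pos fun p hp =>
      pow_pos (pow_pos (Nat.prime_of_mem_primeFactors hp).pos _) _), fun α hα => ?_⟩
    exact index hn hζ h N ih.1 ih.2 α hα
  | psymbols K U V N p l _ hp hc h ih =>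
    haveI : Fact p.Prime := ⟨hp⟩
    refine ⟨Nat.mul_pos ih.1 (pow_pos hp.pos _), fun α hα => ?_⟩
    obtain ⟨v, hv, β, hβ, rfl⟩ := Subgroup.mem_sup.1 hα
    obtain ⟨x, y, v', hv', rfl⟩ := h.rep β hβ
    rw [mul_left_comm, mul_comm N]
    exact ((Pool.Agent.H19PS.hasRep_prod l x y).mul
      ((ih.2 _ (V.mul_mem hv hv')).hasRep ih.1)).indDvd
  | ext K K' V N _ ih =>
    refine ⟨ih.1, ?_⟩
    rintro _ ⟨β, hβ, rfl⟩
    exact (ih.2 β hβ).res ih.1
  | finite K M V V' N A m m' _ hres hm hm' hA ih =>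
    have hpos : 0 < m * m' := by
      rw [← hm]
      exact Module.finrank_pos
    refine ⟨Nat.mul_pos (Nat.pos_of_mul_pos_right hpos) ih.1, fun α hα => ?_⟩
    obtain ⟨r, hr⟩ := hA α hα
    intro D _ _ _ _ hD
    have h1 := Pool.Agent.X213.PI.transfer (ih.2 _ (hres α hα)) D hD
    have h2 := hr D hD
    have h3 : Nat.Coprime (Nat.sqrt (Module.finrank K D)) m' :=
      Nat.Coprime.coprime_dvd_left h2 (hm'.symm.pow_left r)
    rw [hm, mul_comm m m', mul_assoc] at h1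
    exact h3.dvd_of_dvd_mul_left h1

end Pool.Agent.H79.LP
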