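import Pool.Agent.H79.LP.Defs
import Pool.Agent.H79.LP.Deg
import Pool.Agent.H79.LU.R992_PI_Gen

set_option autoImplicit false
set_option linter.all false

/-!
# Symbol length: the proof for one degree
-/

open scoped TensorProduct

namespace Pool.Agent.H79.LP

open Pool.Agent.Helper18.Br Pool.Agent.H552R3.SymBr Pool.Agent.H552R3.SymPred Pool.Agent.H552R3.Tsen
  Pool.Agent.Y109.PI Pool.Agent.R992.PI

universe u

section

variable {K : Type u} [Field K] {q : ℕ} {ζ : K}

theorem sym_eq (hq : 0 < q) (hζ : IsPrimitiveRoot ζ q) (S T : Set Kˣ) :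
    Sym q ζ S T = Subgroup.closure {γ | ∃ a ∈ S, ∃ b ∈ T, γ = symHom hq hζ a b} := by
  rw [Sym]
  congr 1
  ext γ
  simp only [Set.mem_setOf_eq, isSym_iff hq hζ, symHom_apply]

theorem sym_mem (hq : 0 < q) (hζ : IsPrimitiveRoot ζ q) {S T : Set Kˣ} {a b : Kˣ} (ha : a ∈ S)
    (hb : b ∈ T) : symHom hq hζ a b ∈ Sym q ζ S T := by
  rw [sym_eq hq hζ]
  exact Subgroup.subset_closure ⟨a, ha, b, hb, rfl⟩

theorem sym_mono (q : ℕ) (ζ : K) {S T S' T' : Set Kˣ} (h : S ⊆ S') (h' : T ⊆ T') :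
    Sym q ζ S T ≤ Sym q ζ S' T' :=
  Subgroup.closure_mono (by
    rintro γ ⟨a, ha, b, hb, hab⟩
    exact ⟨a, h ha, b, h' hb, hab⟩)

/-- symbols of squares -/
theorem diag_one {k : Type u} [Field k] [IsAlgClosed k] [Algebra k K] (hq : 0 < q)
    (hζ : IsPrimitiveRoot ζ q) (a : Kˣ) : symHom hq hζ a a = 1 := by
  obtain ⟨d, hd⟩ := IsAlgClosed.exists_pow_nat_eq (-1 : k) hq
  have hd0 : d ≠ 0 := by
    rintro rfl
    rw [zero_pow hq.ne'] at hd
    exact one_ne_zero (neg_eq_zero.1 hd.symm)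
  have hd1 : algebraMap k K d ≠ 0 := by
    rwa [Ne, map_eq_zero]
  have hc : (-1 : Kˣ) = (Units.mk0 (algebraMap k K d) hd1) ^ q := by
    ext
    rw [Units.val_pow_eq_pow_val, Units.val_mk0, ← map_pow, hd]
    simp
  rcases symCl_diag hq hζ a with h | h
  · exact h
  · rw [symHom_apply, h, ← symHom_apply, hc, map_pow, symHom_apply, symCl_tors]

theorem rels_iff (hq : 0 < q) (hζ : IsPrimitiveRoot ζ q) {I : Type} [Fintype I] (z : I → Kˣ)
    (W : Subgroup (BrauerGroup.{u, u} K)) {t : ℕ} (w : Fin t → I → I → ℤ) :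
    Rels q ζ z W w ↔ ∀ j, Q (symHom hq hζ) z (w j) ∈ W := by
  have key : ∀ (θ : I → I → BrauerGroup.{u, u} K), (∀ a b, IsSym q ζ (z a) (z b) (θ a b)) →
      ∀ j, ∏ a, ∏ b, θ a b ^ w j a b = Q (symHom hq hζ) z (w j) := by
    intro θ hθ j
    rw [Q, Fintype.prod_prod_type]
    refine Finset.prod_congr rfl fun a _ => Finset.prod_congr rfl fun b _ => ?_
    rw [(isSym_iff hq hζ (z a) (z b) (θ a b)).1 (hθ a b), symHom_apply]
  constructor
  · intro h j
    have h1 := h (fun a b => symCl hq hζ (z a) (z b)) (fun a b => (isSym_iff hq hζ _ _ _).2 rfl) j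
    rwa [key _ (fun a b => (isSym_iff hq hζ _ _ _).2 rfl)] at h1
  · intro h θ hθ j
    rw [key θ hθ]
    exact h j

/-- every alternating matrix is an alternating part -/
theorem exists_alt {I : Type} [Fintype I] (b : Matrix I I ℤ) (hb : Alt b) :
    ∃ b' : I → I → ℤ, alt b' = b := by
  classical
  let e := Fintype.equivFin I
  refine ⟨fun u v => if e u < e v then b u v else 0, ?_⟩
  ext u v
  simp only [alt, Matrix.of_apply]
  rcases lt_trichotomy (e u) (e v) with h | h | h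
  · rw [if_pos h, if_neg h.asymm, sub_zero]
  · have h1 : u = v := e.injective h
    subst h1
    rw [if_neg (lt_irrefl _), sub_zero, hb.1]
  · rw [if_neg h.asymm, if_pos h, zero_sub, hb.2 u v]

/-- nondegenerate translates for all prime divisors -/
theorem nondeg_all {I : Type} [Fintype I] [DecidableEq I] {t : ℕ} (w : Fin t → I → I → ℤ) (hq : 0 < q)
    (h : ∀ p : ℕ, p.Prime → p ∣ q → Nondeg p w) (b : Matrix I I ℤ) (hb : Alt b) :
    ∃ c : Fin t → ℤ, IsCoprime (b + ∑ i, c i • dif (w i)).det (q : ℤ) := by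
  obtain ⟨b', rfl⟩ := exists_alt b hb
  have h1 : ∀ p : ℕ, ∃ c : Fin t → ℤ, p.Prime → p ∣ q →
      (red p (alt b' + ∑ i, c i • dif (w i))).det ≠ 0 := by
    intro p
    by_cases hp : p.Prime ∧ p ∣ q
    · obtain ⟨c, hc⟩ := h p hp.1 hp.2 b'
      refine ⟨c, fun _ _ h0 => hc ?_⟩
      rw [← ZMod.intCast_zmod_eq_zero_iff_dvd]
      exact (red_det p _).trans h0
    · exact ⟨0, fun a b => absurd ⟨a, b⟩ hp⟩
  choose a ha using h1
  obtain ⟨x, hx⟩ := crt_fun q a
  refine ⟨x, ?_⟩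
  rw [Int.isCoprime_iff_gcd_eq_one]
  by_contra hne
  obtain ⟨p, hp, hpd⟩ := Nat.exists_prime_and_dvd hne
  have hp1 : (p : ℤ) ∣ (alt b' + ∑ i, x i • dif (w i)).det :=
    (Int.natCast_dvd_natCast.2 hpd).trans (Int.gcd_dvd_left _ _)
  have hp2 : p ∣ q := by
    have := (Int.natCast_dvd_natCast.2 hpd).trans
      (Int.gcd_dvd_right (alt b' + ∑ i, x i • dif (w i)).det (q : ℤ))
    exact_mod_cast this
  apply ha p hp hp2
  rw [red_add_sum]
  have h2 : ∀ i, ((a p i : ℤ) : ZMod p) = x i := fun i => (hx p hp hp2 hq i).symm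
  simp only [h2]
  rw [← red_add_sum, ← red_det]
  exact (ZMod.intCast_zmod_eq_zero_iff_dvd _ _).2 hp1

/-- symbols in a curve vanish -/
theorem curve_one {k : Type u} [Field k] [IsAlgClosed k] [Algebra k K] (hq : 0 < q)
    (hζ : IsPrimitiveRoot ζ q) (L : IntermediateField k K) (hL : Algebra.trdeg k L ≤ 1) (a b : Kˣ)
    (ha : (a : K) ∈ L) (hb : (b : K) ∈ L) : symHom hq hζ a b = 1 := by
  have hdep : ¬ AlgebraicIndependent k ![(a : K), (b : K)] := by
    intro h
    have h1 : AlgebraicIndependent k ![(⟨a, ha⟩ : L), (⟨b, hb⟩ : L)] := by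
      apply AlgebraicIndependent.of_comp L.val
      convert h using 1
      funext i
      fin_cases i <;> rfl
    have h2 := h1.lift_cardinalMk_le_trdeg
    have h3 := h2.trans (Cardinal.lift_le.2 hL)
    simp at h3
  obtain ⟨w', hw'⟩ : ∃ w : k, algebraMap k K w = ζ :=
    mem_range_of_alg ζ ⟨Polynomial.X ^ q - Polynomial.C 1, Polynomial.X_pow_sub_C_ne_zero hq 1, by
      simp [hζ.pow_eq_one]⟩
  subst hw'
  have hw2 : IsPrimitiveRoot w' q := hζ.of_map_of_injective (algebraMap k K).injective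
  exact tsen hq hw2 a b hdep

theorem rep_pad {l l' : ℕ} (hq : 0 < q) (hζ : IsPrimitiveRoot ζ q) (h : l ≤ l')
    {V : Subgroup (BrauerGroup.{u, u} K)} {α : BrauerGroup.{u, u} K}
    (hα : Rep (symHom hq hζ) l V α) : Rep (symHom hq hζ) l' V α := by
  obtain ⟨d, rfl⟩ := Nat.exists_eq_add_of_le h
  obtain ⟨x, y, v, hv, rfl⟩ := hα
  refine Rep.add x y ⟨fun _ => 1, fun _ => 1, v, hv, ?_⟩
  simp

/-- symbols with one entry among finitely many elements -/
theorem entries_rep (hq : 0 < q) (hζ : IsPrimitiveRoot ζ q) (m : ℕ) (z : Fin m → Kˣ)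
    (α : BrauerGroup.{u, u} K) (hα : α ∈ Sym q ζ Set.univ (Set.range z)) :
    ∃ x : Fin m → Kˣ, α = ∏ i, symHom hq hζ (x i) (z i) := by
  classical
  let T : Subgroup (BrauerGroup.{u, u} K) :=
    { carrier := {α | ∃ x : Fin m → Kˣ, α = ∏ i, symHom hq hζ (x i) (z i)}
      mul_mem' := by
        rintro _ _ ⟨x, rfl⟩ ⟨y, rfl⟩
        refine ⟨x * y, ?_⟩
        rw [← Finset.prod_mul_distrib]
        refine Finset.prod_congr rfl fun i _ => ?_
        rw [Pi.mul_apply, map_mul, MonoidHom.mul_apply]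
      one_mem' := ⟨1, by simp⟩
      inv_mem' := by
        rintro _ ⟨x, rfl⟩
        refine ⟨x⁻¹, ?_⟩
        rw [← Finset.prod_inv_distrib]
        refine Finset.prod_congr rfl fun i _ => ?_
        rw [Pi.inv_apply, map_inv, MonoidHom.inv_apply] }
  have h : Sym q ζ Set.univ (Set.range z) ≤ T := by
    rw [sym_eq hq hζ, Subgroup.closure_le]
    rintro γ ⟨a, _, _, ⟨j, rfl⟩, rfl⟩
    refine ⟨Pi.mulSingle j a, ?_⟩
    rw [Finset.prod_eq_single j]
    · rw [Pi.mulSingle_eq_same]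
    · intro i _ hi
      rw [Pi.mulSingle_eq_of_ne hi, map_one, MonoidHom.one_apply]
    · intro h
      exact absurd (Finset.mem_univ _) h
  exact h hα

theorem rep_zero (hq : 0 < q) (hζ : IsPrimitiveRoot ζ q) {V : Subgroup (BrauerGroup.{u, u} K)}
    {α : BrauerGroup.{u, u} K} (hα : α ∈ V) : Rep (symHom hq hζ) 0 V α :=
  ⟨fun _ => 1, fun _ => 1, α, hα, by simp⟩

theorem Len.rep {k : Type u} [Field k] [IsAlgClosed k] [Algebra k K] (hq : 0 < q)
    (hζ : IsPrimitiveRoot ζ q) {U V : Subgroup (BrauerGroup.{u, u} K)} {l : ℕ}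
    (h : Len k q ζ U V l) : ∀ α ∈ U, Rep (symHom hq hζ) l V α := by
  classical
  have hanti : ∀ a b, symHom hq hζ a b = (symHom hq hζ b a)⁻¹ := fun a b => symCl_anti hq hζ a b
  have htors : ∀ a b, symHom hq hζ a b ^ q = 1 := fun a b => symCl_tors hq hζ a b
  have hdiag : ∀ a, symHom hq hζ a a = 1 ∨ symHom hq hζ a a = symHom hq hζ a 1 :=
    fun a => Or.inl (diag_one (k := k) hq hζ a)
  -- reduction to the symbols
  have red1 : ∀ (U V V' : Subgroup (BrauerGroup.{u, u} K)) (l : ℕ), V' ≤ V →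
      (∀ α ∈ U, Rep (symHom hq hζ) l V α) →
      ∀ α ∈ V' ⊔ U, Rep (symHom hq hζ) l V α := by
    intro U V V' l hV h α hα
    obtain ⟨v, hv, β, hβ, rfl⟩ := Subgroup.mem_sup.1 hα
    obtain ⟨x, y, v', hv', rfl⟩ := h β hβ
    exact ⟨x, y, v * v', V.mul_mem (hV hv) hv', by rw [mul_left_comm]⟩
  induction h with
  | base U V h => exact fun α hα => rep_zero hq hζ (h hα)
  | mono U U' V V' l l' _ hU hV hl ih =>
    intro α hα
    obtain ⟨x, y, v, hv, rfl⟩ := ih α (hU hα)
    exact rep_pad hq hζ hl ⟨x, y, v, hV hv, rfl⟩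
  | sum U U' V l l' _ _ ih ih' =>
    intro α hα
    obtain ⟨a, ha, b, hb, rfl⟩ := Subgroup.mem_sup.1 hα
    obtain ⟨x, y, v, hv, rfl⟩ := ih a ha
    obtain ⟨x', y', v', hv', rfl⟩ := ih' b hb
    rw [mul_assoc]
    exact Rep.add x y ⟨x', y', v * v', V.mul_mem hv hv', by rw [mul_left_comm]⟩
  | trans U V W l l' _ _ ih ih' =>
    intro α hα
    obtain ⟨x, y, v, hv, rfl⟩ := ih α hα
    exact Rep.add x y (ih' v hv)
  | pointwise U V l F hF _ ih => exact fun α hα => ih α hα α (hF α hα)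
  | curve L hL =>
    intro α hα
    have h1 : Sym q ζ {a : Kˣ | (a : K) ∈ L} {a : Kˣ | (a : K) ∈ L} ≤ ⊥ := by
      rw [sym_eq hq hζ, Subgroup.closure_le]
      rintro γ ⟨a, ha, b, hb, rfl⟩
      exact Subgroup.mem_bot.2 (curve_one hq hζ L hL a b ha hb)
    exact rep_zero hq hζ (h1 hα)
  | powers G G' hG =>
    intro α hα
    refine rep_zero hq hζ ?_
    revert α
    show Sym q ζ (G' : Set Kˣ) G' ≤ Sym q ζ G G
    rw [sym_eq hq hζ, Subgroup.closure_le]
    rintro γ ⟨a, ha, b, hb, rfl⟩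
    obtain ⟨a', ha', c, rfl⟩ := hG a ha
    obtain ⟨b', hb', d, rfl⟩ := hG b hb
    have h1 : symHom hq hζ (a' * c ^ q) (b' * d ^ q) = symHom hq hζ a' b' := by
      have e1 : ∀ x, symHom hq hζ (c ^ q) x = 1 := by
        intro x
        rw [map_pow, MonoidHom.pow_apply, htors]
      have e2 : ∀ x, symHom hq hζ x (d ^ q) = 1 := by
        intro x
        rw [map_pow, htors]
      rw [map_mul, map_mul, MonoidHom.mul_apply, MonoidHom.mul_apply, e1, e1, e2, mul_one, mul_one,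
        mul_one]
    rw [h1]
    exact sym_mem hq hζ ha' hb'
  | degree r ξ S T hr hξ hζξ =>
    intro α hα
    subst hζξ
    refine rep_zero hq hζ ?_
    obtain ⟨β, hβ, rfl⟩ := hα
    have hn : 0 < q * r := Nat.mul_pos hq hr
    have h1 : Sym (q * r) ξ S T ≤ (Sym q (ξ ^ r) S T).comap
        (powMonoidHom r : BrauerGroup.{u, u} K →* _) := by
      rw [sym_eq hn hξ, Subgroup.closure_le]
      rintro γ ⟨a, ha, b, hb, rfl⟩
      show symHom hn hξ a b ^ r ∈ Sym q (ξ ^ r) S T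
      have h2 : symHom hn hξ a b ^ r = symHom hq hζ a b := by
        rw [symHom_apply hq hζ, ← symCl_deg rfl hq hr hn hξ hζ a b, ← symHom_apply, map_pow,
          MonoidHom.pow_apply]
      rw [h2]
      exact sym_mem hq hζ ha hb
    exact h1 hβ
  | entries m z =>
    intro α hα
    obtain ⟨x, rfl⟩ := entries_rep hq hζ m z α hα
    exact ⟨x, z, 1, Subgroup.one_mem _, (mul_one _).symm⟩
  | block G V g t I z w hI hw hnd =>
    refine red1 _ _ V g le_sup_left fun α hα => ?_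
    have hw' := (rels_iff hq hζ z _ w).1 hw
    have hlow : V ⊔ Sym q ζ (G : Set Kˣ) (G ∪ Set.range z) ≤
        low (symHom hq hζ) G (V ⊔ Sym q ζ G G) z := by
      refine sup_le (le_sup_left.trans (low_V _)) ?_
      rw [sym_eq hq hζ, Subgroup.closure_le]
      rintro γ ⟨a, ha, b, hb, rfl⟩
      rcases hb with hb | ⟨c, rfl⟩
      · exact low_V _ (Subgroup.mem_sup_right (sym_mem hq hζ ha hb))
      · exact low_sym _ ha c
    rw [sym_eq hq hζ] at hα
    obtain ⟨x, y, v, hv, rfl⟩ := abs_main hanti q hq htors 1 G G.one_mem hdiag (V ⊔ Sym q ζ G G)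
      (fun a ha b hb => Subgroup.mem_sup_right (sym_mem hq hζ ha hb)) z g hI (fun b hb => by
        obtain ⟨c, hc⟩ := nondeg_all w hq hnd b hb
        refine ⟨∑ i, c i • w i, ?_, ?_⟩
        · rw [Q_comb]
          exact Subgroup.prod_mem _ fun i _ => Subgroup.zpow_mem _ (hlow (hw' i)) _
        · rw [dif_comb]
          exact hc) α hα
    exact ⟨x, y, v, hv, rfl⟩
  | short G V l t I z w hV hw hsh =>
    refine red1 _ V V l le_rfl fun α hα => ?_
    have hw' := (rels_iff hq hζ z _ w).1 hw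
    have hsV : ∀ a ∈ G, ∀ b, (b ∈ G ∨ b ∈ Set.range z) → symHom hq hζ a b ∈ V :=
      fun a ha b hb => hV (sym_mem hq hζ ha hb)
    rw [sym_eq hq hζ] at hα
    obtain ⟨w1, hw1⟩ := exists_Q hanti G V (fun a ha b hb => hsV a ha b (Or.inl hb)) z α hα
    obtain ⟨c, e, f, h⟩ := hsh w1
    have h1 := mod_low hanti q htors 1 G G.one_mem hdiag V z (w1 + ∑ i, c i • w i) l e f (by
      intro u v
      have e1 : (w1 + ∑ i, c i • w i) u v - (w1 + ∑ i, c i • w i) v u =
          (alt w1 + ∑ i, c i • alt (w i)) u v := by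
        have e2 : (∑ i, c i • alt (w i)) = ∑ i, c i • dif (w i) := rfl
        rw [e2, ← dif_comb]
        simp only [Pi.add_apply, Matrix.add_apply, Matrix.of_apply, alt]
        ring
      rw [e1]
      have e3 : (∑ i, wdg (e i) (f i)) u v = ∑ i, (e i u * f i v - f i u * e i v) := by
        rw [Matrix.sum_apply]
        rfl
      rw [e3]
      exact h u v)
    have hlow : low (symHom hq hζ) G V z ≤ V := by
      refine sup_le le_rfl ?_
      rw [Subgroup.closure_le]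
      rintro γ ⟨a, ha, c, rfl⟩
      exact hsV a ha _ (Or.inr ⟨c, rfl⟩)
    rw [Q_add, Q_comb] at h1
    have hw0 : ∏ i, Q (symHom hq hζ) z (w i) ^ c i ∈ V :=
      Subgroup.prod_mem _ fun i _ => Subgroup.zpow_mem _ (hw' i) _
    have h3 := Subgroup.mul_mem _ (Subgroup.mul_mem _ (hlow hw1) (hlow h1)) (Subgroup.inv_mem _ hw0)
    have e1 : ∀ p r t : BrauerGroup.{u, u} K, α * p⁻¹ * (p * r * t) * r⁻¹ = t * α := by
      intro p r t
      calc α * p⁻¹ * (p * r * t) * r⁻¹ = t * α * (p * p⁻¹) * (r * r⁻¹) := by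
            simp only [mul_assoc, mul_comm, mul_left_comm]
        _ = t * α := by rw [mul_inv_cancel, mul_inv_cancel, mul_one, mul_one]
    rw [e1] at h3
    refine ⟨fun i => mon z (e i), fun i => mon z (f i), _, h3, ?_⟩
    rw [mul_inv_cancel_left]

end

end Pool.Agent.H79.LP
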